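import Pool.Agent.N898.BU.Stm

/-!
# The functional equation of the zeta function, and its order
-/

set_option autoImplicit false

namespace Pool.Agent.N945.BU

open Filter Topology Complex MeasureTheory Set Asymptotics
open Pool.Agent.N210.FV Pool.Agent.N898.BU

theorem nG {z : ℂ} (hz : 0 < z.re) : ‖Complex.Gamma z‖ ≤ Real.Gamma z.re := by
  rw [Complex.Gamma_eq_integral hz, Real.Gamma_eq_integral hz]
  unfold Complex.GammaIntegral
  refine (norm_integral_le_integral_norm _).trans (le_of_eq ?_)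
  refine setIntegral_congr_fun measurableSet_Ioi (fun t ht => ?_)
  have ht' : (0 : ℝ) < t := ht
  simp only [norm_mul]
  rw [Complex.norm_cpow_eq_rpow_re_of_pos ht', Complex.norm_real, Real.norm_eq_abs,
    abs_of_pos (Real.exp_pos _)]
  simp

theorem gam_up (x : ℝ) (hx : 1 / 4 ≤ x) :
    Real.Gamma x ≤ 4 * Real.exp (2 * (x + 2) ^ (3 / 2 : ℝ)) := by
  have hx0 : 0 < x := by linarith
  have h1 := Real.Gamma_add_one hx0.ne'
  have h2 := Real.Gamma_add_one (s := x + 1) (by positivity)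
  have e : x + 1 + 1 = x + 2 := by ring
  rw [e] at h2
  have hG := Real.Gamma_pos_of_pos hx0
  have h3 : Real.Gamma x ≤ 4 * Real.Gamma (x + 2) := by
    rw [h2, h1]
    have : 1 ≤ 4 * ((x + 1) * x) := by nlinarith
    nlinarith
  set m : ℕ := ⌈x⌉₊ + 1 with hm
  have hm0 : 0 < m := Nat.succ_pos _
  have hxm : x + 1 ≤ m := by
    rw [hm]; push_cast
    linarith [Nat.le_ceil x]
  have hmx : (m : ℝ) ≤ x + 2 := by
    rw [hm]; push_cast
    linarith [Nat.ceil_lt_add_one hx0.le]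
  have h4 : Real.Gamma (x + 2) ≤ Real.Gamma ((m : ℝ) + 1) := by
    apply Real.Gamma_strictMonoOn_Ici.monotoneOn
    · simp only [mem_Ici]; linarith
    · simp only [mem_Ici]; linarith
    · linarith
  rw [Real.Gamma_nat_eq_factorial] at h4
  have h5 : (m.factorial : ℝ) ≤ (m : ℝ) ^ m := by exact_mod_cast Nat.factorial_le_pow m
  have hmr : (0 : ℝ) < m := by exact_mod_cast hm0
  have h6 : (m : ℝ) ^ m ≤ Real.exp (2 * (x + 2) ^ (3 / 2 : ℝ)) := by
    have e1 : (m : ℝ) ^ m = Real.exp (m * Real.log m) := by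
      rw [← Real.rpow_natCast, Real.rpow_def_of_pos hmr, mul_comm]
    rw [e1]
    apply Real.exp_le_exp.2
    have h7 : Real.log m ≤ 2 * (m : ℝ) ^ (1 / 2 : ℝ) := by
      have h8 := Real.log_le_sub_one_of_pos (Real.rpow_pos_of_pos hmr (1 / 2))
      rw [Real.log_rpow hmr] at h8
      linarith
    have e2 : (m : ℝ) * (2 * (m : ℝ) ^ (1 / 2 : ℝ)) = 2 * (m : ℝ) ^ (3 / 2 : ℝ) := by
      have : (m : ℝ) ^ (3 / 2 : ℝ) = m * (m : ℝ) ^ (1 / 2 : ℝ) := by
        rw [← Real.rpow_one_add' hmr.le (by norm_num)]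
        norm_num
      rw [this]; ring
    calc (m : ℝ) * Real.log m ≤ m * (2 * (m : ℝ) ^ (1 / 2 : ℝ)) := by gcongr
      _ = 2 * (m : ℝ) ^ (3 / 2 : ℝ) := e2
      _ ≤ 2 * (x + 2) ^ (3 / 2 : ℝ) := by gcongr
  linarith

theorem cos_up (z : ℂ) : ‖Complex.cos z‖ ≤ Real.exp ‖z‖ := by
  unfold Complex.cos
  rw [norm_div]
  have h1 : ‖exp (z * I)‖ ≤ Real.exp ‖z‖ := by
    have := Complex.norm_exp_le_exp_norm (z * I)
    rwa [norm_mul, norm_I, mul_one] at this
  have h2 : ‖exp (-z * I)‖ ≤ Real.exp ‖z‖ := by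
    have := Complex.norm_exp_le_exp_norm (-z * I)
    rwa [norm_mul, norm_I, mul_one, norm_neg] at this
  have h3 : ‖(2 : ℂ)‖ = 2 := by norm_num
  rw [h3]
  have := norm_add_le (exp (z * I)) (exp (-z * I))
  rw [div_le_iff₀ (by norm_num : (0:ℝ) < 2)]
  linarith

theorem gi0 (s : ℂ) : gi [0] s = (Gammaℝ s)⁻¹ := by
  unfold gi
  simp

theorem G0 : Gammaℝ 0 = 0 := by
  rw [Gammaℝ_def]
  simp

theorem fe (s : ℂ) : gi [0] (1 - s) * (riemannZeta₁ s * ((1 - s) - 1)) =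
    gi [0] s * (riemannZeta₁ (1 - s) * (s - 1)) := by
  rw [gi0, gi0]
  by_cases h0 : s = 0
  · subst h0
    rw [G0]
    simp
  by_cases h1 : s = 1
  · subst h1
    rw [sub_self, G0]
    simp
  have h2 : (1 : ℂ) - s ≠ 0 := sub_ne_zero.2 (fun h => h1 h.symm)
  have h3 : (1 : ℂ) - s ≠ 1 := by
    intro h
    apply h0
    linear_combination -h
  rw [Pool.Agent.H437R2.z1_of_ne h1, Pool.Agent.H437R2.z1_of_ne h3,
    riemannZeta_def_of_ne_zero h0, riemannZeta_def_of_ne_zero h2, completedRiemannZeta_one_sub]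
  ring

theorem left_bd {s : ℂ} (hs : s.re < 1 / 2) (h1 : 1 ≤ ‖s‖) :
    ‖riemannZeta₁ s‖ ≤ (1 + ‖s‖) * (2 * 1 * (4 * Real.exp (2 * (1 + ‖s‖ + 2) ^ (3 / 2 : ℝ))) *
      Real.exp (2 * (1 + ‖s‖)) * (3 * (1 + ‖s‖ + 1) ^ 2)) := by
  obtain ⟨w, hw⟩ : ∃ w : ℂ, w = 1 - s := ⟨_, rfl⟩
  have hsw : s = 1 - w := by rw [hw]; ring
  have hwr : 1 / 2 < w.re := by
    rw [hw, sub_re, one_re]
    linarith
  have hwn : ‖w‖ ≤ 1 + ‖s‖ := by
    rw [hw]
    have := norm_sub_le (1 : ℂ) s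
    rwa [norm_one] at this
  have hw1 : w ≠ 1 := by
    intro h
    rw [h, sub_self] at hsw
    rw [hsw, norm_zero] at h1
    linarith
  have hs1 : s ≠ 1 := by
    intro h
    rw [h, one_re] at hs
    linarith
  have hwneg : ∀ n : ℕ, w ≠ -n := by
    intro n h
    rw [h, neg_re, natCast_re] at hwr
    have : (0 : ℝ) ≤ n := Nat.cast_nonneg n
    linarith
  have hz := riemannZeta_one_sub hwneg hw1
  rw [← hsw] at hz
  rw [Pool.Agent.H437R2.z1_of_ne hs1, norm_mul, hz, norm_mul, norm_mul, norm_mul, norm_mul]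
  have e1 : ‖s - 1‖ ≤ 1 + ‖s‖ := by
    have := norm_sub_le s (1 : ℂ)
    rw [norm_one] at this
    linarith
  have e2 : ‖(2 : ℂ)‖ ≤ 2 := by norm_num
  have e3 : ‖(2 * (Real.pi : ℂ)) ^ (-w)‖ ≤ 1 := by
    have : (2 * (Real.pi : ℂ)) = ((2 * Real.pi : ℝ) : ℂ) := by push_cast; rfl
    rw [this, Complex.norm_cpow_eq_rpow_re_of_pos (by positivity)]
    apply Real.rpow_le_one_of_one_le_of_nonpos
    · linarith [Real.pi_gt_three]
    · rw [neg_re]; linarith
  have hwre : w.re ≤ ‖w‖ := re_le_norm w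
  have e4 : ‖Gamma w‖ ≤ 4 * Real.exp (2 * (1 + ‖s‖ + 2) ^ (3 / 2 : ℝ)) := by
    refine (nG (by linarith)).trans ((gam_up _ (by linarith)).trans ?_)
    have h5 : (w.re + 2) ^ (3 / 2 : ℝ) ≤ (1 + ‖s‖ + 2) ^ (3 / 2 : ℝ) :=
      Real.rpow_le_rpow (by linarith) (by linarith) (by norm_num)
    have h6 : Real.exp (2 * (w.re + 2) ^ (3 / 2 : ℝ)) ≤
      Real.exp (2 * (1 + ‖s‖ + 2) ^ (3 / 2 : ℝ)) := Real.exp_le_exp.2 (by linarith)
    linarith
  have e5 : ‖Complex.cos (Real.pi * w / 2)‖ ≤ Real.exp (2 * (1 + ‖s‖)) := by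
    refine (cos_up _).trans (Real.exp_le_exp.2 ?_)
    rw [norm_div, norm_mul, Complex.norm_real, Real.norm_eq_abs, abs_of_pos Real.pi_pos]
    have h3 : ‖(2 : ℂ)‖ = 2 := by norm_num
    rw [h3, div_le_iff₀ (by norm_num : (0:ℝ) < 2)]
    have := Real.pi_lt_four
    have h0 := norm_nonneg w
    nlinarith
  have e6 : ‖riemannZeta w‖ ≤ 3 * (1 + ‖s‖ + 1) ^ 2 := by
    have h2 := Pool.Agent.H437R2.z1_norm_le hwr.le
    rw [Pool.Agent.H437R2.z1_of_ne hw1, norm_mul] at h2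
    have h3 : ‖w - 1‖ = ‖s‖ := by
      rw [hw, show 1 - s - 1 = -s by ring, norm_neg]
    rw [h3] at h2
    have h4 : ‖riemannZeta w‖ ≤ ‖s‖ * ‖riemannZeta w‖ :=
      le_mul_of_one_le_left (norm_nonneg _) h1
    have h5 : (‖w‖ + 1) ^ 2 ≤ (1 + ‖s‖ + 1) ^ 2 := by
      apply pow_le_pow_left₀ (by positivity)
      linarith
    linarith
  gcongr

theorem grow : ∃ C : ℝ, ∀ s, ‖riemannZeta₁ s‖ ≤ Real.exp (C * (1 + ‖s‖) ^ (3 / 2 : ℝ)) := by
  obtain ⟨B, hB⟩ := (isCompact_closedBall (0 : ℂ) 1).exists_bound_of_continuousOn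
    differentiable_riemannZeta₁.continuous.continuousOn
  refine ⟨23 + |B|, fun s => ?_⟩
  set T : ℝ := 1 + ‖s‖ with hT
  have hT1 : 1 ≤ T := by rw [hT]; linarith [norm_nonneg s]
  have hTT : T ≤ T ^ (3 / 2 : ℝ) := by
    calc T = T ^ (1 : ℝ) := (Real.rpow_one T).symm
      _ ≤ T ^ (3 / 2 : ℝ) := Real.rpow_le_rpow_of_exponent_le hT1 (by norm_num)
  have hb0 := abs_nonneg B
  have hTe : T ≤ Real.exp T := by linarith [Real.add_one_le_exp T]
  by_cases h1 : ‖s‖ ≤ 1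
  · have h2 := hB s (mem_closedBall_zero_iff.2 h1)
    calc ‖riemannZeta₁ s‖ ≤ B := h2
      _ ≤ |B| := le_abs_self B
      _ ≤ Real.exp |B| := by linarith [Real.add_one_le_exp |B|]
      _ ≤ _ := Real.exp_le_exp.2 (by nlinarith)
  · push Not at h1
    by_cases h2 : s.re < 1 / 2
    · have h3 := left_bd h2 h1.le
      rw [← hT] at h3
      refine h3.trans ?_
      have h4 : (T + 2) ^ (3 / 2 : ℝ) ≤ 6 * T ^ (3 / 2 : ℝ) := by
        have h5 : (T + 2) ^ (3 / 2 : ℝ) ≤ (3 * T) ^ (3 / 2 : ℝ) :=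
          Real.rpow_le_rpow (by linarith) (by linarith) (by norm_num)
        rw [Real.mul_rpow (by norm_num) (by linarith)] at h5
        have h6 : (3 : ℝ) ^ (3 / 2 : ℝ) ≤ 6 := by
          have h7 : (3 : ℝ) ^ (3 / 2 : ℝ) = (27 : ℝ) ^ (1 / 2 : ℝ) := by
            rw [show (27 : ℝ) = 3 ^ (3 : ℝ) by norm_num, ← Real.rpow_mul (by norm_num)]
            norm_num
          rw [h7, ← Real.sqrt_eq_rpow]
          rw [Real.sqrt_le_left (by norm_num)]
          norm_num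
        have h8 : 0 ≤ T ^ (3 / 2 : ℝ) := by positivity
        nlinarith
      have h5 : T + 1 ≤ 2 * T := by linarith
      have h6 : T * (2 * 1 * (4 * Real.exp (2 * (T + 2) ^ (3 / 2 : ℝ))) *
          Real.exp (2 * T) * (3 * (T + 1) ^ 2)) ≤
          (96 * T ^ 3) * (Real.exp (2 * (T + 2) ^ (3 / 2 : ℝ)) * Real.exp (2 * T)) := by
        have h7 : (T + 1) ^ 2 ≤ 4 * T ^ 2 := by nlinarith
        have h8 : 0 ≤ T * (2 * 1 * (4 * Real.exp (2 * (T + 2) ^ (3 / 2 : ℝ))) *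
          Real.exp (2 * T) * 3) := by positivity
        calc _ = T * (2 * 1 * (4 * Real.exp (2 * (T + 2) ^ (3 / 2 : ℝ))) *
              Real.exp (2 * T) * 3) * (T + 1) ^ 2 := by ring
          _ ≤ T * (2 * 1 * (4 * Real.exp (2 * (T + 2) ^ (3 / 2 : ℝ))) *
              Real.exp (2 * T) * 3) * (4 * T ^ 2) := by gcongr
          _ = _ := by ring
      refine h6.trans ?_
      have h9 : (96 : ℝ) ≤ Real.exp 5 := by
        have := Real.exp_one_gt_d9
        have e5 : Real.exp 5 = Real.exp 1 ^ 5 := by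
          rw [← Real.exp_nat_mul]; norm_num
        rw [e5]
        calc (96 : ℝ) ≤ (2.7 : ℝ) ^ 5 := by norm_num
          _ ≤ _ := by
            apply pow_le_pow_left₀ (by norm_num)
            linarith
      have h10 : T ^ 3 ≤ Real.exp (3 * T) := by
        have e3 : Real.exp (3 * T) = Real.exp T ^ 3 := by
          rw [← Real.exp_nat_mul]; norm_num
        rw [e3]
        exact pow_le_pow_left₀ (by linarith) hTe 3
      calc (96 * T ^ 3) * (Real.exp (2 * (T + 2) ^ (3 / 2 : ℝ)) * Real.exp (2 * T)) ≤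
            (Real.exp 5 * Real.exp (3 * T)) *
              (Real.exp (2 * (T + 2) ^ (3 / 2 : ℝ)) * Real.exp (2 * T)) := by gcongr
        _ = Real.exp (5 + 3 * T + (2 * (T + 2) ^ (3 / 2 : ℝ) + 2 * T)) := by
            rw [Real.exp_add, Real.exp_add, Real.exp_add]
        _ ≤ _ := Real.exp_le_exp.2 (by nlinarith)
    · push Not at h2
      have h3 := Pool.Agent.H437R2.z1_norm_le h2
      have h4 : ‖s‖ + 1 = T := by rw [hT]; ring
      rw [h4] at h3
      have h5 : (3 : ℝ) ≤ Real.exp 2 := by linarith [Real.add_one_le_exp (2 : ℝ)]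
      have h10 : T ^ 2 ≤ Real.exp (2 * T) := by
        have e3 : Real.exp (2 * T) = Real.exp T ^ 2 := by
          rw [← Real.exp_nat_mul]; norm_num
        rw [e3]
        exact pow_le_pow_left₀ (by linarith) hTe 2
      calc ‖riemannZeta₁ s‖ ≤ 3 * T ^ 2 := h3
        _ ≤ Real.exp 2 * Real.exp (2 * T) := by gcongr
        _ = Real.exp (2 + 2 * T) := (Real.exp_add _ _).symm
        _ ≤ _ := Real.exp_le_exp.2 (by nlinarith)

theorem main_ZF : S_ZF :=
  ⟨⟨differentiable_riemannZeta₁, ⟨1, by rw [riemannZeta₁_one]; exact one_ne_zero⟩, grow⟩, fe⟩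

end Pool.Agent.N945.BU
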